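import Pool.Agent.H18.FalseTheta2

open Finset PowerSeries
open scoped PowerSeries.WithPiTopology

namespace Pool.Agent.Results.MP_d4d41d_nt.Positive

open Pool.Agent.H18.FalseTheta

noncomputable def cz (m : ℤ) : ℤ :=
  if m < 0 then 0 else coeff m.toNat (invOfUnit (Psi 2) 1)

lemma cz_neg (m : ℤ) (h : m < 0) : cz m = 0 := if_pos h

lemma cz_zero : cz 0 = 1 := by
  unfold cz
  simp

lemma pick (n e : ℕ) : ∑ p ∈ antidiagonal n,
    (if e = p.1 then 1 else 0) * coeff p.2 (invOfUnit (Psi 2) 1) = cz (n - e) := by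
  by_cases h : e ≤ n
  · rw [sum_eq_single (e, n - e)]
    · unfold cz
      rw [if_pos rfl, if_neg (by omega), one_mul]
      congr 2
      omega
    · intro p hp hne
      rw [if_neg, zero_mul]
      intro he
      apply hne
      have := HasAntidiagonal.mem_antidiagonal.1 hp
      ext
      · exact he.symm
      · simp only
        omega
    · intro hc
      exact absurd (HasAntidiagonal.mem_antidiagonal.2 (by simp only; omega)) hc
  · rw [cz_neg _ (by omega)]
    apply sum_eq_zero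
    intro p hp
    have := HasAntidiagonal.mem_antidiagonal.1 hp
    rw [if_neg (by omega), zero_mul]

lemma conv (F : ℤ⟦X⟧) (σ : ℕ → ℤ) (hF : ∀ N K : ℕ, N < K → coeff N F = ∑ k ∈ range K, σ k *
      ((if e1 2 k = N then 1 else 0) - (if e2 2 k = N then 1 else 0))) (n K : ℕ) (hK : n < K) :
    coeff n (F * invOfUnit (Psi 2) 1) =
      ∑ k ∈ range K, σ k * (cz (n - e1 2 k) - cz (n - e2 2 k)) := by
  rw [coeff_mul]
  have : ∀ p ∈ antidiagonal n, coeff p.1 F * coeff p.2 (invOfUnit (Psi 2) 1) =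
      ∑ k ∈ range K, σ k * ((if e1 2 k = p.1 then 1 else 0) * coeff p.2 (invOfUnit (Psi 2) 1) -
        (if e2 2 k = p.1 then 1 else 0) * coeff p.2 (invOfUnit (Psi 2) 1)) := by
    intro p hp
    have := HasAntidiagonal.mem_antidiagonal.1 hp
    rw [hF p.1 K (by omega), sum_mul]
    exact sum_congr rfl fun k _ => by ring
  rw [sum_congr rfl this, sum_comm]
  apply sum_congr rfl
  intro k _
  rw [← mul_sum, sum_sub_distrib, pick, pick]

lemma pent1 (k : ℕ) : pentagonal (-(k : ℤ)) = e1 2 k := by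
  have h1 := two_mul_natCast_pentagonal_neg (k : ℤ)
  have h2 : (k : ℤ) * (k + 1) = 2 * (tri k : ℕ) := by exact_mod_cast (two_tri k).symm
  have h3 := le_tri k
  unfold e1
  have : 2 * (pentagonal (-(k : ℤ)) : ℤ) = 6 * (tri k : ℕ) - 2 * k := by
    linear_combination h1 + 3 * h2
  omega

lemma pent2 (k : ℕ) : pentagonal ((k : ℤ) + 1) = e2 2 k := by
  have h1 := two_mul_natCast_pentagonal ((k : ℤ) + 1)
  have h2 : (k : ℤ) * (k + 1) = 2 * (tri k : ℕ) := by exact_mod_cast (two_tri k).symm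
  unfold e2
  simp only [tri]
  have : 2 * (pentagonal ((k : ℤ) + 1) : ℤ) = 6 * (tri k : ℕ) + 2 * k + 2 := by
    linear_combination h1 + 3 * h2
  omega

lemma coeff_pent (N K : ℕ) (hK : N < K) :
    coeff N (pentagonalSeries ℤ) = ∑ k ∈ range K, (-1) ^ k *
      ((if e1 2 k = N then 1 else 0) - (if e2 2 k = N then 1 else 0)) := by
  have h := (WithPiTopology.hasSum_pow_pentagonal_sub_pentagonalSeries ℤ).map
    (coeff (R := ℤ) N).toAddMonoidHom (WithPiTopology.continuous_coeff ℤ N)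
  have e : ∀ k : ℕ, coeff N ((-1) ^ k * (X ^ pentagonal (-k) - X ^ pentagonal (k + 1)) : ℤ⟦X⟧) =
      (-1) ^ k * ((if e1 2 k = N then 1 else 0) - (if e2 2 k = N then 1 else 0)) := by
    intro k
    have : ((-1 : ℤ⟦X⟧)) ^ k = C ((-1) ^ k) := by simp
    rw [this, coeff_C_mul, map_sub, coeff_X_pow, coeff_X_pow, pent1, pent2]
    simp only [eq_comm]
  have h2 : HasSum (fun k : ℕ => (-1 : ℤ) ^ k *
      ((if e1 2 k = N then 1 else 0) - (if e2 2 k = N then 1 else 0)))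
      (coeff N (pentagonalSeries ℤ)) := by
    convert h using 1
    · funext k
      exact (e k).symm
    · rfl
  refine h2.unique (hasSum_sum_of_ne_finset_zero ?_)
  intro k hk
  have := le_e1 2 k (by norm_num)
  have := e2_eq 2 k
  have hk' : K ≤ k := by simpa using hk
  rw [if_neg (by omega), if_neg (by omega)]
  simp

lemma e1_succ (k : ℕ) : e1 2 (k + 1) = e2 2 k + (k + 1) := by
  unfold e1 e2
  have := le_tri k
  simp only [tri]
  omega

lemma tri_par (j : ℕ) : Even (tri (4 * j)) := by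
  induction j with
  | zero => simp [tri]
  | succ j ih =>
    rw [show 4 * (j + 1) = 4 * j + 1 + 1 + 1 + 1 by ring]
    simp only [tri]
    rw [Nat.even_iff] at ih ⊢
    omega

lemma sg (j : ℕ) : (-1 : ℤ) ^ tri (4 * j) = 1 ∧ (-1 : ℤ) ^ tri (4 * j + 1) = -1 ∧
    (-1 : ℤ) ^ tri (4 * j + 1 + 1) = -1 ∧ (-1 : ℤ) ^ tri (4 * j + 1 + 1 + 1) = 1 := by
  have h := Nat.even_iff.1 (tri_par j)
  simp only [tri]
  refine ⟨Even.neg_one_pow ?_, Odd.neg_one_pow ?_, Odd.neg_one_pow ?_, Even.neg_one_pow ?_⟩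
  · rw [Nat.even_iff]; omega
  · rw [Nat.odd_iff]; omega
  · rw [Nat.odd_iff]; omega
  · rw [Nat.even_iff]; omega

lemma sg2 (j : ℕ) : (-1 : ℤ) ^ (4 * j) = 1 ∧ (-1 : ℤ) ^ (4 * j + 1) = -1 ∧
    (-1 : ℤ) ^ (4 * j + 1 + 1) = 1 ∧ (-1 : ℤ) ^ (4 * j + 1 + 1 + 1) = -1 := by
  simp [pow_succ, pow_mul]

noncomputable def G (n : ℤ) (j : ℕ) : ℤ :=
  (cz (n - e2 2 (4 * j)) + cz (n - e1 2 (4 * j + 1)) - cz (n - e2 2 (4 * j + 1))) +
  (cz (n - e1 2 (4 * j + 1 + 1)) - cz (n - e2 2 (4 * j + 1 + 1)) -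
    cz (n - e1 2 (4 * j + 1 + 1 + 1))) +
  (cz (n - e2 2 (4 * j + 1 + 1 + 1)) - cz (n - e1 2 (4 * j + 1 + 1 + 1 + 1)))

noncomputable def D (n : ℤ) (j : ℕ) : ℤ :=
  (cz (n - e1 2 (4 * j + 1 + 1)) - cz (n - e2 2 (4 * j + 1 + 1)) -
    cz (n - e1 2 (4 * j + 1 + 1 + 1))) + cz (n - e2 2 (4 * j + 1 + 1 + 1))

lemma blocks (n : ℤ) (J : ℕ) :
    ∑ k ∈ range (4 * J), (-1) ^ tri k * (cz (n - e1 2 k) - cz (n - e2 2 k)) =
      cz n - cz (n - e1 2 (4 * J)) - ∑ j ∈ range J, G n j := by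
  induction J with
  | zero => simp [e1, tri]
  | succ J ih =>
    rw [show 4 * (J + 1) = 4 * J + 1 + 1 + 1 + 1 by ring, sum_range_succ, sum_range_succ,
      sum_range_succ, sum_range_succ, ih, sum_range_succ]
    obtain ⟨s0, s1, s2, s3⟩ := sg J
    rw [s0, s1, s2, s3]
    unfold G
    ring

lemma blocks2 (n : ℤ) (J : ℕ) :
    ∑ k ∈ range (4 * J), (-1) ^ k * (cz (n - e1 2 k) - cz (n - e2 2 k)) =
      ∑ k ∈ range (4 * J), (-1) ^ tri k * (cz (n - e1 2 k) - cz (n - e2 2 k)) +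
        2 * ∑ j ∈ range J, D n j := by
  induction J with
  | zero => simp
  | succ J ih =>
    rw [show 4 * (J + 1) = 4 * J + 1 + 1 + 1 + 1 by ring]
    simp only [sum_range_succ]
    rw [ih]
    obtain ⟨s0, s1, s2, s3⟩ := sg J
    obtain ⟨t0, t1, t2, t3⟩ := sg2 J
    rw [s0, s1, s2, s3, t0, t1, t2, t3]
    unfold D
    ring

lemma zero_sum (n : ℕ) (hn : 1 ≤ n) :
    ∑ k ∈ range (4 * (n + 1)), (-1) ^ tri k * (cz (n - e1 2 k) - cz (n - e2 2 k)) = 0 := by
  rw [← conv (Psi 2) _ (coeff_Psi 2 (by norm_num)) n _ (by omega), Psi_mul_inv 2 (by norm_num),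
    coeff_one, if_neg (by omega)]

lemma recur (n : ℕ) (hn : 1 ≤ n) : cz n = ∑ j ∈ range (n + 1), G n j := by
  have h := zero_sum n hn
  have := le_e1 2 (4 * (n + 1)) (by norm_num)
  rw [blocks, cz_neg (n - e1 2 (4 * (n + 1))) (by omega)] at h
  linarith

def P (n : ℤ) : Prop := ∀ m : ℤ, m ≤ n → 0 ≤ cz m ∧ cz (m - 1) + cz (m - 3) ≤ cz m

lemma mono_of {n : ℤ} (h : P n) (x y : ℤ) (hxy : x ≤ y) (hy : y ≤ n) : cz x ≤ cz y := by
  obtain ⟨d, rfl⟩ : ∃ d : ℕ, y = x + d := ⟨(y - x).toNat, by omega⟩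
  induction d with
  | zero => simp
  | succ d ih =>
    have h1 := ih (by omega) (by push_cast at hy; omega)
    have h2 := (h _ hy).2
    have h3 := (h (x + (d + 1 : ℕ) - 3) (by omega)).1
    have e : x + (d + 1 : ℕ) - 1 = x + d := by push_cast; ring
    rw [e] at h2
    linarith

lemma pair_of {n : ℤ} (h : P n) (x z y : ℤ) (hx : x + 1 ≤ y) (hz : z + 3 ≤ y) (hy : y ≤ n) :
    cz x + cz z ≤ cz y := by
  have h1 := (h y hy).2
  have h2 := mono_of h x (y - 1) (by omega) (by omega)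
  have h3 := mono_of h z (y - 3) (by omega) (by omega)
  linarith

lemma G_nonneg {n : ℤ} (h : P n) (j : ℕ) : 0 ≤ G (n + 1) j := by
  have a0 := e2_eq 2 (4 * j)
  have a1 := e2_eq 2 (4 * j + 1)
  have a2 := e2_eq 2 (4 * j + 1 + 1)
  have a3 := e2_eq 2 (4 * j + 1 + 1 + 1)
  have b0 := e1_succ (4 * j)
  have b1 := e1_succ (4 * j + 1)
  have b2 := e1_succ (4 * j + 1 + 1)
  have b3 := e1_succ (4 * j + 1 + 1 + 1)
  have c1 := (h (n + 1 - e2 2 (4 * j)) (by omega)).1
  have c2 := mono_of h (n + 1 - e2 2 (4 * j + 1)) (n + 1 - e1 2 (4 * j + 1)) (by omega) (by omega)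
  have c3 := pair_of h (n + 1 - e2 2 (4 * j + 1 + 1)) (n + 1 - e1 2 (4 * j + 1 + 1 + 1))
    (n + 1 - e1 2 (4 * j + 1 + 1)) (by omega) (by omega) (by omega)
  have c4 := mono_of h (n + 1 - e1 2 (4 * j + 1 + 1 + 1 + 1)) (n + 1 - e2 2 (4 * j + 1 + 1 + 1))
    (by omega) (by omega)
  unfold G
  linarith

lemma G_zero {n : ℤ} (h : P n) : cz (n + 1 - 1) + cz (n + 1 - 3) ≤ G (n + 1) 0 := by
  have c2 := pair_of h (n + 1 - 3) (n + 1 - 5) (n + 1 - 2) (by omega) (by omega) (by omega)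
  have c3 := pair_of h (n + 1 - 12) (n + 1 - 15) (n + 1 - 7) (by omega) (by omega) (by omega)
  have c4 := mono_of h (n + 1 - 26) (n + 1 - 22) (by omega) (by omega)
  unfold G
  simp only [e1, e2, tri]
  norm_num at c2 c3 c4 ⊢
  linarith

lemma allP (n : ℕ) : P n := by
  induction n with
  | zero =>
    intro m hm
    rw [cz_neg (m - 1) (by omega), cz_neg (m - 3) (by omega)]
    rcases (show m < 0 ∨ m = 0 by omega) with h | rfl
    · rw [cz_neg m h]; simp
    · rw [cz_zero]; simp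
  | succ n ih =>
    intro m hm
    rcases (show m ≤ n ∨ m = n + 1 by omega) with h | rfl
    · exact ih m h
    · have r := recur (n + 1) (by omega)
      push_cast at r
      rw [sum_range_succ'] at r
      have s : 0 ≤ ∑ j ∈ range (n + 1), G (n + 1) (j + 1) := sum_nonneg fun j _ => G_nonneg ih _
      have g := G_zero ih
      have p1 := (ih (n + 1 - 1) (by omega)).1
      have p3 := (ih (n + 1 - 3) (by omega)).1
      constructor <;> linarith

lemma D_nonneg (n j : ℕ) : 0 ≤ D n j := by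
  have h := allP n
  have a2 := e2_eq 2 (4 * j + 1 + 1)
  have b2 := e1_succ (4 * j + 1 + 1)
  have c1 := (h (n - e2 2 (4 * j + 1 + 1 + 1)) (by omega)).1
  have c3 := pair_of h (n - e2 2 (4 * j + 1 + 1)) (n - e1 2 (4 * j + 1 + 1 + 1))
    (n - e1 2 (4 * j + 1 + 1)) (by omega) (by omega) (by omega)
  unfold D
  linarith

lemma D_zero (n : ℕ) (hn : 7 ≤ n) : 0 < D n 0 := by
  have h := allP n
  have c1 := (h (n - 22) (by omega)).1
  have key : cz (n - 12) + cz (n - 15) < cz (n - 7) := by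
    by_cases hc : n < 12
    · rw [cz_neg (n - 12) (by omega), cz_neg (n - 15) (by omega)]
      have := mono_of h 0 (n - 7) (by omega) (by omega)
      rw [cz_zero] at this
      linarith
    · have d1 := pair_of h (n - 8) (n - 15) (n - 7) (by omega) (by omega) (by omega)
      have d2 := pair_of h (n - 12) 0 (n - 8) (by omega) (by omega) (by omega)
      rw [cz_zero] at d2
      linarith
  unfold D
  simp only [e1, e2, tri]
  norm_num
  linarith

theorem result (n : ℕ) (hn : 7 ≤ n) :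
    0 < coeff n ((∏' k : ℕ, (1 - X ^ (k + 1) : ℤ⟦X⟧)) * invOfUnit (Psi 2) 1) := by
  rw [WithPiTopology.tprod_one_sub_X_pow, conv _ _ coeff_pent n (4 * (n + 1)) (by omega), blocks2,
    zero_sum n (by omega), sum_range_succ']
  have s : 0 ≤ ∑ j ∈ range n, D n (j + 1) := sum_nonneg fun j _ => D_nonneg n _
  have := D_zero n hn
  linarith

end Pool.Agent.Results.MP_d4d41d_nt.Positive
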